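import Mathlib

set_option autoImplicit false

open MeasureTheory

namespace Pool.Agent.P.MP_190226_lc

variable {X : Type*} [MeasurableSpace X]

/-- Representatives of the elements of the full group of `T₀`: bimeasurable bijections `U` of `X`
such that `U x` lies in the `T₀`-orbit of `x` for every `x`. -/
structure FullRep (μ : Measure X) (T₀ : X ≃ᵐ X) where
  /-- the underlying bimeasurable bijection -/
  toFun : X ≃ᵐ X
  orbit : ∀ x, ∃ n : ℤ, toFun x = ((T₀.toEquiv : Equiv.Perm X) ^ n) x

/-- The uniform distance `d(S, T) = μ {x | S x ≠ T x}`. -/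
noncomputable instance (μ : Measure X) (T₀ : X ≃ᵐ X) : PseudoEMetricSpace (FullRep μ T₀) where
  edist S T := μ {x | S.toFun x ≠ T.toFun x}
  edist_self S := by simp
  edist_comm S T := by simp only [ne_comm]
  edist_triangle S T U := by
    refine le_trans (measure_mono ?_) (measure_union_le _ _)
    intro x hx
    by_contra h
    simp only [Set.mem_union, Set.mem_ofPred_eq, not_or, not_not] at h
    exact hx (h.1.trans h.2)

/-- The full group `[T₀]` as a metric space: representatives at uniform distance zero, that is
almost everywhere equal ones, are identified. -/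
abbrev FullGroup (μ : Measure X) (T₀ : X ≃ᵐ X) := SeparationQuotient (FullRep μ T₀)

/-- The conjugacy relation of the full group: pairs of classes `([S], [T])` with
`S = U T U⁻¹` almost everywhere for some `U` in the full group. -/
def conjRel (μ : Measure X) (T₀ : X ≃ᵐ X) : Set (FullGroup μ T₀ × FullGroup μ T₀) :=
  {p | ∃ S T U : FullRep μ T₀, p = (SeparationQuotient.mk S, SeparationQuotient.mk T) ∧
    S.toFun =ᵐ[μ] U.toFun ∘ T.toFun ∘ U.toFun.symm}

end Pool.Agent.P.MP_190226_lc
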