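import Mathlib

set_option autoImplicit false

open MeasureTheory Filter Topology
open scoped symmDiff ENNReal

namespace Pool.Agent.P.MP_190226_lc

variable {X : Type*} [MeasurableSpace X] {Y : Type*} [MeasurableSpace Y] {μ : Measure X}

/-- Families of measurable sets that have a jointly measurable version. -/
def Good (μ : Measure X) (P : Y → X → Prop) : Prop :=
  (∀ p, MeasurableSet {x | P p x}) ∧
    ∃ Z : Set (Y × X), MeasurableSet Z ∧ ∀ p, ∀ᵐ x ∂μ, ((p, x) ∈ Z ↔ P p x)

theorem Good.congr {P Q : Y → X → Prop} (h : Good μ P) (hPQ : ∀ p x, P p x ↔ Q p x) :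
    Good μ Q := by
  have : P = Q := by ext p x; exact hPQ p x
  rwa [← this]

theorem Good.const (c : Prop) : Good μ (fun (_ : Y) (_ : X) => c) := by
  refine ⟨fun p => MeasurableSet.const c, {_z | c}, MeasurableSet.const c, fun p => ?_⟩
  exact Eventually.of_forall (fun x => Iff.rfl)

theorem Good.not {P : Y → X → Prop} (h : Good μ P) : Good μ (fun p x => ¬ P p x) := by
  obtain ⟨h1, Z, hZ, h2⟩ := h
  refine ⟨fun p => (h1 p).compl, Zᶜ, hZ.compl, fun p => ?_⟩
  filter_upwards [h2 p] with x hx
  exact not_congr hx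

theorem Good.exists {ι : Type*} [Countable ι] {P : ι → Y → X → Prop} (h : ∀ i, Good μ (P i)) :
    Good μ (fun p x => ∃ i, P i p x) := by
  choose Z hZ h2 using fun i => (h i).2
  refine ⟨fun p => ?_, ⋃ i, Z i, MeasurableSet.iUnion hZ, fun p => ?_⟩
  · rw [Set.ofPred_exists]
    exact MeasurableSet.iUnion (fun i => (h i).1 p)
  · filter_upwards [ae_all_iff.mpr (fun i => h2 i p)] with x hx
    simp only [Set.mem_iUnion]
    exact exists_congr hx

theorem Good.forall {ι : Type*} [Countable ι] {P : ι → Y → X → Prop} (h : ∀ i, Good μ (P i)) :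
    Good μ (fun p x => ∀ i, P i p x) :=
  (Good.exists (fun i => (h i).not)).not.congr (fun p x => by simp)

theorem Good.or {P Q : Y → X → Prop} (hP : Good μ P) (hQ : Good μ Q) :
    Good μ (fun p x => P p x ∨ Q p x) :=
  (Good.exists (ι := Bool) (P := fun b => Bool.rec P Q b) (fun b => by cases b <;> assumption)).congr
    (fun p x => by simp)

theorem Good.and {P Q : Y → X → Prop} (hP : Good μ P) (hQ : Good μ Q) :
    Good μ (fun p x => P p x ∧ Q p x) :=
  (hP.not.or hQ.not).not.congr (fun p x => by tauto)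

theorem Good.comp {P : Y → X → Prop} (h : Good μ P) {f : X → X}
    (hf : Measure.QuasiMeasurePreserving f μ μ) : Good μ (fun p x => P p (f x)) := by
  obtain ⟨h1, Z, hZ, h2⟩ := h
  refine ⟨fun p => hf.measurable (h1 p), Prod.map id f ⁻¹' Z,
    (measurable_id.prodMap hf.measurable) hZ, fun p => ?_⟩
  exact hf.ae (h2 p)

theorem Good.measurable_measure [SFinite μ] {P : Y → X → Prop} (h : Good μ P) :
    Measurable (fun p => μ {x | P p x}) := by
  obtain ⟨-, Z, hZ, h2⟩ := h
  have : (fun p => μ {x | P p x}) = fun p => μ (Prod.mk p ⁻¹' Z) := by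
    ext p
    refine measure_congr ?_
    filter_upwards [h2 p] with x hx
    exact propext hx.symm
  rw [this]
  exact measurable_measure_prodMk_left hZ

theorem exists_dense_seq' (μ : Measure X) [IsFiniteMeasure μ]
    [MeasurableSpace.CountablyGenerated X] :
    ∃ D : ℕ → Set X, (∀ k, MeasurableSet (D k)) ∧
      ∀ s, MeasurableSet s → ∀ ε : ℝ≥0∞, 0 < ε → ∃ k, μ (s ∆ D k) < ε := by
  obtain ⟨𝒜, hc, hd⟩ := exists_countable_measureDense μ
  obtain ⟨D, hD⟩ := hc.exists_eq_range hd.nonempty
  refine ⟨D, fun k => hd.measurable _ (by rw [hD]; exact ⟨k, rfl⟩), fun s hs ε hε => ?_⟩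
  obtain ⟨δ, hδ0, hδ⟩ : ∃ δ : ℝ, 0 < δ ∧ ENNReal.ofReal δ ≤ ε := by
    by_cases h : ε = ∞
    · exact ⟨1, one_pos, by simp [h]⟩
    · exact ⟨ε.toReal, ENNReal.toReal_pos hε.ne' h, by rw [ENNReal.ofReal_toReal h]⟩
  obtain ⟨t, ht, h1⟩ := hd.approx s hs (measure_ne_top _ _) δ hδ0
  rw [hD] at ht
  obtain ⟨k, rfl⟩ := ht
  exact ⟨k, h1.trans_le hδ⟩

theorem Good.of_cont [IsFiniteMeasure μ] [MeasurableSpace.CountablyGenerated X]
    [TopologicalSpace Y] [OpensMeasurableSpace Y] {P : Y → X → Prop}
    (h1 : ∀ p, MeasurableSet {x | P p x})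
    (h2 : ∀ p₀, ∀ ε : ℝ≥0∞, 0 < ε → ∀ᶠ p in 𝓝 p₀, μ ({x | P p x} ∆ {x | P p₀ x}) < ε) :
    Good μ P := by
  classical
  obtain ⟨D, hD, hd⟩ := exists_dense_seq' μ
  have hopen : ∀ (s : Set X) (ε : ℝ≥0∞), IsOpen {p | μ ({x | P p x} ∆ s) < ε} := by
    intro s ε
    rw [isOpen_iff_mem_nhds]
    intro p₀ hp₀
    obtain ⟨δ, hδ0, hδ⟩ := ENNReal.lt_iff_exists_add_pos_lt.mp hp₀
    filter_upwards [h2 p₀ δ (by exact_mod_cast hδ0)] with p hp
    refine lt_of_le_of_lt (measure_symmDiff_le _ {x | P p₀ x} _) (lt_of_le_of_lt ?_ hδ)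
    rw [add_comm]
    gcongr
  have hex : ∀ (j : ℕ) (p : Y), ∃ k, μ ({x | P p x} ∆ D k) < 2⁻¹ ^ j := fun j p =>
    hd _ (h1 p) _ (ENNReal.pow_pos (by norm_num) _)
  let κ : ℕ → Y → ℕ := fun j p => Nat.find (hex j p)
  have hκ : ∀ j, Measurable (κ j) := fun j =>
    measurable_find (hex j) (fun k => (hopen _ _).measurableSet)
  refine ⟨h1, ⋃ N : ℕ, ⋂ j : ℕ, ⋂ _ : N ≤ j, ⋃ k, (κ j ⁻¹' {k}) ×ˢ D k, ?_, fun p => ?_⟩
  · refine MeasurableSet.iUnion fun N => MeasurableSet.iInter fun j =>
      MeasurableSet.iInter fun _ => MeasurableSet.iUnion fun k => ?_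
    exact (hκ j (measurableSet_singleton k)).prod (hD k)
  · have hs : (∑' j, μ ({x | P p x} ∆ D (κ j p))) ≠ ∞ := by
      refine ne_top_of_le_ne_top ?_ (ENNReal.tsum_le_tsum fun j => (Nat.find_spec (hex j p)).le)
      rw [ENNReal.tsum_geometric]
      simp
    filter_upwards [ae_eventually_notMem hs] with x hx
    obtain ⟨N, hN⟩ := eventually_atTop.mp hx
    simp only [Set.mem_iUnion, Set.mem_iInter, Set.mem_prod, Set.mem_preimage,
      Set.mem_singleton_iff, exists_eq_left']
    simp only [Set.mem_symmDiff, Set.mem_ofPred_eq] at hN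
    constructor
    · rintro ⟨M, hM⟩
      have h3 := hM (max M N) (le_max_left _ _)
      have h4 := hN (max M N) (le_max_right _ _)
      tauto
    · intro hP
      refine ⟨N, fun j hj => ?_⟩
      have h4 := hN j hj
      tauto

open Classical in
/-- The number of `k < N` with `b k`. -/
noncomputable def cnt (b : ℕ → Prop) : ℕ → ℕ
  | 0 => 0
  | N + 1 => cnt b N + if b N then 1 else 0

/-- Sets of natural numbers that are sparse, of upper density at most one third. -/
def Sparse (b : ℕ → Prop) : Prop := ∃ C : ℕ, ∀ N, 3 * cnt b N ≤ N + C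

open Classical in
theorem cnt_succ' (b : ℕ → Prop) (N : ℕ) :
    cnt b (N + 1) = (if b 0 then 1 else 0) + cnt (fun k => b (k + 1)) N := by
  induction N with
  | zero => simp [cnt]
  | succ N ih => rw [cnt, ih, cnt, add_assoc]

theorem sparse_succ_iff (b : ℕ → Prop) : Sparse (fun k => b (k + 1)) ↔ Sparse b := by
  constructor
  · rintro ⟨C, hC⟩
    refine ⟨C + 3, fun N => ?_⟩
    cases N with
    | zero => simp [cnt]
    | succ N =>
      rw [cnt_succ']
      have := hC N
      split_ifs <;> omega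
  · rintro ⟨C, hC⟩
    refine ⟨C + 1, fun N => ?_⟩
    have := hC (N + 1)
    rw [cnt_succ'] at this
    split_ifs at this <;> omega

theorem not_sparse_both {b c : ℕ → Prop} (h : ∀ k, b k ∨ c k) (hb : Sparse b) (hc : Sparse c) :
    False := by
  obtain ⟨C, hC⟩ := hb
  obtain ⟨C', hC'⟩ := hc
  have key : ∀ N, N ≤ cnt b N + cnt c N := by
    intro N
    induction N with
    | zero => simp
    | succ N ih =>
      rw [cnt, cnt]
      rcases h N with h1 | h1 <;> simp only [h1, if_true] <;> split_ifs <;> omega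
  have h1 := hC (C + C' + 1)
  have h2 := hC' (C + C' + 1)
  have h3 := key (C + C' + 1)
  omega

theorem Good.cnt {b : ℕ → Y → X → Prop} (h : ∀ k, Good μ (b k)) (N m : ℕ) :
    Good μ (fun p x => cnt (fun k => b k p x) N = m) := by
  induction N generalizing m with
  | zero => exact (Good.const (0 = m)).congr (fun p x => by simp [MP_190226_lc.cnt])
  | succ N ih =>
    refine (((h N).and (Good.exists fun m' => (ih m').and (Good.const (m' + 1 = m)))).or
      ((h N).not.and (ih m))).congr (fun p x => ?_)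
    rw [MP_190226_lc.cnt]
    by_cases hb : b N p x <;> simp [hb]

theorem Good.sparse {b : ℕ → Y → X → Prop} (h : ∀ k, Good μ (b k)) :
    Good μ (fun p x => Sparse (fun k => b k p x)) :=
  (Good.exists fun C : ℕ => Good.forall fun N : ℕ => Good.exists fun m : ℕ =>
    (Good.cnt h N m).and (Good.const (3 * m ≤ N + C))).congr (fun p x => by simp [Sparse])

/-- A maximal inequality. -/
theorem measure_not_sparse_le [IsFiniteMeasure μ] {T : X → X} (hT : MeasurePreserving T μ μ)
    {B : Set X} (hB : MeasurableSet B) :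
    μ {x | ¬ Sparse (fun k => T^[k] x ∈ B)} ≤ 3 * μ B := by
  classical
  obtain ⟨G, G0, Gs⟩ : ∃ G : ℕ → X → ℕ, (∀ x, G 0 x = 0) ∧
      ∀ N x, G (N + 1) x = (if x ∈ B then 3 else 0) + G N (T x) - 1 :=
    ⟨fun N => Nat.rec (fun _ => 0) (fun _ g x => (if x ∈ B then 3 else 0) + g (T x) - 1) N,
      fun x => rfl, fun N x => rfl⟩
  have Gm : ∀ N, Measurable (G N) := by
    intro N
    induction N with
    | zero => rw [show G 0 = fun _ => 0 from funext G0]; exact measurable_const
    | succ N ih =>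
      have : G (N + 1) = fun x => (if x ∈ B then 3 else 0) + G N (T x) - 1 := funext (Gs N)
      rw [this]
      exact ((Measurable.ite hB measurable_const measurable_const).add
        (ih.comp hT.measurable)).sub measurable_const
  have Gmono : ∀ N x, G N x ≤ G (N + 1) x := by
    intro N
    induction N with
    | zero => intro x; simp [G0]
    | succ N ih => intro x; rw [Gs, Gs (N + 1)]; have := ih (T x); omega
  have Gbd : ∀ N x, G N x ≤ 3 * N := by
    intro N
    induction N with
    | zero => intro x; simp [G0]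
    | succ N ih => intro x; rw [Gs]; have := ih (T x); split_ifs <;> omega
  have Gc : ∀ N x, 3 * cnt (fun k => T^[k] x ∈ B) N ≤ G N x + N := by
    intro N
    induction N with
    | zero => intro x; simp [cnt]
    | succ N ih =>
      intro x
      rw [cnt_succ', Gs]
      have := ih (T x)
      simp only [Function.iterate_succ, Function.comp_apply, Function.iterate_zero, id_eq]
      by_cases hx : x ∈ B <;> simp only [hx, if_true, if_false] <;> omega
  have hfin : ∀ N, (∫⁻ x : X, (Nat.cast (G N x) : ℝ≥0∞) ∂μ) ≠ ∞ := by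
    intro N
    refine ne_top_of_le_ne_top (b := ∫⁻ _, ((3 * N : ℕ) : ℝ≥0∞) ∂μ) ?_
      (lintegral_mono fun x => Nat.cast_le.mpr (Gbd N x))
    rw [lintegral_const]
    exact ENNReal.mul_ne_top (ENNReal.natCast_ne_top _) (measure_ne_top _ _)
  have Gm' : ∀ N, Measurable (fun x => (G N x : ℝ≥0∞)) := fun N =>
    (measurable_from_top (f := fun n : ℕ => (n : ℝ≥0∞))).comp (Gm N)
  have key : ∀ N, μ {x | G (N + 1) x ≠ 0} ≤ 3 * μ B := by
    intro N
    have hE : MeasurableSet {x | G (N + 1) x ≠ 0} :=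
      (Gm (N + 1) (measurableSet_singleton 0)).compl
    have h1 : ∫⁻ x, ((G (N + 1) x : ℝ≥0∞) + {x | G (N + 1) x ≠ 0}.indicator 1 x) ∂μ ≤
        ∫⁻ x, ((G (N + 1) (T x) : ℝ≥0∞) + 3 * B.indicator 1 x) ∂μ := by
      refine lintegral_mono fun x => ?_
      have h2 := Gs N x
      have h3 := Gmono N (T x)
      by_cases hx : G (N + 1) x = 0
      · simp [hx]
      · rw [Set.indicator_of_mem (show x ∈ {x | G (N + 1) x ≠ 0} from hx)]
        by_cases hxB : x ∈ B
        · rw [Set.indicator_of_mem hxB]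
          simp only [hxB, if_true] at h2
          have h4 : G (N + 1) x + 1 ≤ G (N + 1) (T x) + 3 * 1 := by omega
          simp only [Pi.one_apply]
          exact_mod_cast h4
        · rw [Set.indicator_of_notMem hxB]
          simp only [hxB, if_false] at h2
          have h4 : G (N + 1) x + 1 ≤ G (N + 1) (T x) + 3 * 0 := by omega
          simp only [Pi.one_apply]
          exact_mod_cast h4
    have hm : Measurable (fun x => (G (N + 1) (T x) : ℝ≥0∞)) := (Gm' _).comp hT.measurable
    rw [lintegral_add_left (Gm' _), lintegral_add_left hm,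
      lintegral_indicator_one hE, lintegral_const_mul _ (measurable_one.indicator hB),
      lintegral_indicator_one hB, hT.lintegral_comp (Gm' _)] at h1
    exact (ENNReal.add_le_add_iff_left (hfin _)).mp h1
  have hsub : {x | ¬ Sparse (fun k => T^[k] x ∈ B)} ⊆ ⋃ N, {x | G (N + 1) x ≠ 0} := by
    intro x hx
    by_contra h
    simp only [Set.mem_iUnion, Set.mem_ofPred_eq, not_exists, not_not] at h
    refine hx ⟨0, fun N => ?_⟩
    have h1 := Gc N x
    have h2 := Gmono N x
    have h3 := h N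
    omega
  refine (measure_mono hsub).trans ?_
  rw [Monotone.measure_iUnion]
  · exact iSup_le key
  · refine monotone_nat_of_le_succ fun N x hx => ?_
    have := Gmono (N + 1) x
    simp only [Set.mem_ofPred_eq] at hx ⊢
    omega

end Pool.Agent.P.MP_190226_lc
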