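import Mathlib
import Pool.Agent.P.MP_190226_lc.Defs
import Pool.Agent.P.MP_190226_lc.Good

set_option autoImplicit false

open MeasureTheory Filter Topology
open scoped symmDiff ENNReal

namespace Pool.Agent.P.MP_190226_lc

variable {X : Type*} [MeasurableSpace X] {μ : Measure X} {T₀ : X ≃ᵐ X}

/-- Integer powers of `T₀`. -/
def pw (T₀ : X ≃ᵐ X) (n : ℤ) : X → X := ⇑((T₀.toEquiv : Equiv.Perm X) ^ n)

theorem pw_zero (x : X) : pw T₀ 0 x = x := by simp [pw]

theorem pw_add (m n : ℤ) (x : X) : pw T₀ (m + n) x = pw T₀ m (pw T₀ n x) := by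
  simp [pw, zpow_add]

theorem pw_neg_pw (n : ℤ) (x : X) : pw T₀ (-n) (pw T₀ n x) = x := by
  rw [← pw_add, neg_add_cancel, pw_zero]

theorem pw_pw_neg (n : ℤ) (x : X) : pw T₀ n (pw T₀ (-n) x) = x := by
  rw [← pw_add, add_neg_cancel, pw_zero]

theorem pw_mp (h0 : MeasurePreserving T₀ μ μ) (n : ℤ) : MeasurePreserving (pw T₀ n) μ μ := by
  induction n using Int.induction_on with
  | zero => rw [show pw T₀ 0 = id from funext pw_zero]; exact MeasurePreserving.id μ
  | succ n ih =>
    have : pw T₀ (n + 1) = pw T₀ n ∘ T₀ := by ext x; rw [pw_add]; rfl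
    rw [this]; exact ih.comp h0
  | pred n ih =>
    have : pw T₀ (-n - 1) = pw T₀ (-n) ∘ T₀.symm := by ext x; rw [sub_eq_add_neg, pw_add]; rfl
    rw [this]; exact ih.comp (h0.symm T₀)

theorem pw_meas (n : ℤ) : Measurable (pw T₀ n) := by
  induction n using Int.induction_on with
  | zero => rw [show pw T₀ 0 = id from funext pw_zero]; exact measurable_id
  | succ n ih =>
    have : pw T₀ (n + 1) = pw T₀ n ∘ T₀ := by ext x; rw [pw_add]; rfl
    rw [this]; exact ih.comp T₀.measurable
  | pred n ih =>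
    have : pw T₀ (-n - 1) = pw T₀ (-n) ∘ T₀.symm := by ext x; rw [sub_eq_add_neg, pw_add]; rfl
    rw [this]; exact ih.comp T₀.symm.measurable

/-- The orbit equivalence relation. -/
def Orb (T₀ : X ≃ᵐ X) (x y : X) : Prop := ∃ n : ℤ, y = pw T₀ n x

theorem Orb.refl (x : X) : Orb T₀ x x := ⟨0, (pw_zero x).symm⟩

theorem Orb.symm {x y : X} (h : Orb T₀ x y) : Orb T₀ y x := by
  obtain ⟨n, rfl⟩ := h
  exact ⟨-n, (pw_neg_pw n x).symm⟩

theorem Orb.trans {x y z : X} (h : Orb T₀ x y) (h' : Orb T₀ y z) : Orb T₀ x z := by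
  obtain ⟨n, rfl⟩ := h
  obtain ⟨m, rfl⟩ := h'
  exact ⟨m + n, (pw_add m n x).symm⟩

theorem FullRep.orb (U : FullRep μ T₀) (x : X) : Orb T₀ x (U.toFun x) := U.orbit x

theorem FullRep.orb_symm (U : FullRep μ T₀) (x : X) : Orb T₀ x (U.toFun.symm x) := by
  have := U.orb (U.toFun.symm x)
  rw [MeasurableEquiv.apply_symm_apply] at this
  exact this.symm

theorem orb_iterate {f : X → X} (hf : ∀ x, Orb T₀ x (f x)) (k : ℕ) (x : X) :
    Orb T₀ x (f^[k] x) := by
  induction k with
  | zero => exact Orb.refl x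
  | succ k ih => rw [Function.iterate_succ_apply']; exact ih.trans (hf _)

section
variable [StandardBorelSpace X]

/-- Injective maps along orbits do not decrease the measure. -/
theorem measure_le_of_injOn (h0 : MeasurePreserving T₀ μ μ) {f : X → X} (hf : Measurable f)
    {A B : Set X} (hA : MeasurableSet A) (ho : ∀ x ∈ A, Orb T₀ x (f x)) (hi : Set.InjOn f A)
    (hB : Set.MapsTo f A B) : μ A ≤ μ B := by
  obtain ⟨e, he⟩ := exists_surjective_nat ℤ
  let A' : ℕ → Set X := fun n => A ∩ {x | f x = pw T₀ (e n) x}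
  have hA' : ∀ n, MeasurableSet (A' n) := fun n =>
    hA.inter (measurableSet_eq_fun hf (pw_meas _))
  have hU : ⋃ n, disjointed A' n = A := by
    rw [iUnion_disjointed]
    ext x
    simp only [Set.mem_iUnion, A', Set.mem_inter_iff, Set.mem_ofPred_eq]
    constructor
    · rintro ⟨n, h, -⟩; exact h
    · intro hx
      obtain ⟨n, hn⟩ := ho x hx
      obtain ⟨m, rfl⟩ := he n
      exact ⟨m, hx, hn⟩
  have hd : ∀ n, MeasurableSet (disjointed A' n) := MeasurableSet.disjointed hA'
  let B' : ℕ → Set X := fun n => pw T₀ (-e n) ⁻¹' disjointed A' n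
  have hB' : ∀ n, MeasurableSet (B' n) := fun n => pw_meas _ (hd n)
  have hval : ∀ n y, y ∈ B' n → pw T₀ (-e n) y ∈ A ∧ f (pw T₀ (-e n) y) = y := by
    intro n y hy
    have h1 : pw T₀ (-e n) y ∈ A' n := disjointed_subset A' n hy
    exact ⟨h1.1, by rw [h1.2, pw_pw_neg]⟩
  have hdis : Pairwise (Function.onFun Disjoint B') := by
    intro m n hmn
    rw [Function.onFun, Set.disjoint_left]
    intro y hm hn
    have h1 := hi (hval m y hm).1 (hval n y hn).1 ((hval m y hm).2.trans (hval n y hn).2.symm)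
    have h2 := Set.disjoint_left.mp (disjoint_disjointed A' hmn) hm
    rw [h1] at h2
    exact h2 hn
  calc μ A = ∑' n, μ (disjointed A' n) := by
        rw [← measure_iUnion (disjoint_disjointed A') hd, hU]
    _ = ∑' n, μ (B' n) := by
        congr 1; ext n
        exact ((pw_mp h0 _).measure_preimage (hd n).nullMeasurableSet).symm
    _ = μ (⋃ n, B' n) := (measure_iUnion hdis hB').symm
    _ ≤ μ B := by
        refine measure_mono (Set.iUnion_subset fun n y hy => ?_)
        rw [← (hval n y hy).2]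
        exact hB (hval n y hy).1

theorem FullRep.mp (h0 : MeasurePreserving T₀ μ μ) (U : FullRep μ T₀) :
    MeasurePreserving U.toFun μ μ := by
  refine ⟨U.toFun.measurable, Measure.ext fun s hs => ?_⟩
  rw [Measure.map_apply U.toFun.measurable hs]
  apply le_antisymm
  · exact measure_le_of_injOn h0 U.toFun.measurable (U.toFun.measurable hs) (fun x _ => U.orb x)
      U.toFun.injective.injOn (fun x hx => hx)
  · exact measure_le_of_injOn h0 U.toFun.symm.measurable hs (fun x _ => U.orb_symm x)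
      U.toFun.symm.injective.injOn (fun x hx => by simpa using hx)

omit [StandardBorelSpace X] in
/-- A functional relation along orbits is the graph of a measurable map. -/
theorem exists_fun_of_rel {R : X → X → Prop} (ho : ∀ x y, R x y → Orb T₀ x y)
    (hm : ∀ n, MeasurableSet {x | R x (pw T₀ n x)})
    (hf : ∀ x y y', R x y → R x y' → y = y') :
    ∃ f : X → X, Measurable f ∧ (∀ x, Orb T₀ x (f x)) ∧ ∀ x y, R x y → f x = y := by
  classical
  let f : X → X := fun x => if h : ∃ y, R x y then h.choose else x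
  have h1 : ∀ x y, R x y → f x = y := by
    intro x y hxy
    have h : ∃ y, R x y := ⟨y, hxy⟩
    simp only [f, dif_pos h]
    exact hf _ _ _ h.choose_spec hxy
  have h2 : ∀ x, (¬ ∃ y, R x y) → f x = x := fun x h => by simp only [f, dif_neg h]
  refine ⟨f, fun s hs => ?_, fun x => ?_, h1⟩
  · have : f ⁻¹' s = (⋃ n, {x | R x (pw T₀ n x)} ∩ pw T₀ n ⁻¹' s) ∪
        ((⋃ n, {x | R x (pw T₀ n x)})ᶜ ∩ s) := by
      ext x
      simp only [Set.mem_preimage, Set.mem_union, Set.mem_iUnion, Set.mem_inter_iff,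
        Set.mem_ofPred_eq, Set.mem_compl_iff]
      by_cases h : ∃ y, R x y
      · obtain ⟨y, hy⟩ := h
        obtain ⟨n, rfl⟩ := ho _ _ hy
        constructor
        · intro hx
          exact Or.inl ⟨n, hy, by rwa [h1 _ _ hy] at hx⟩
        · rintro (⟨m, hm1, hm2⟩ | ⟨h3, -⟩)
          · rwa [h1 _ _ hm1]
          · exact absurd ⟨n, hy⟩ h3
      · rw [h2 x h]
        constructor
        · intro hx
          exact Or.inr ⟨fun ⟨n, hn⟩ => h ⟨_, hn⟩, hx⟩
        · rintro (⟨m, hm1, -⟩ | ⟨-, h3⟩)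
          · exact absurd ⟨_, hm1⟩ h
          · exact h3
    rw [this]
    exact (MeasurableSet.iUnion fun n => (hm n).inter (pw_meas n hs)).union
      ((MeasurableSet.iUnion hm).compl.inter hs)
  · by_cases h : ∃ y, R x y
    · obtain ⟨y, hy⟩ := h
      rw [h1 _ _ hy]; exact ho _ _ hy
    · rw [h2 x h]; exact Orb.refl x

open Classical in
/-- Maps that are piecewise powers of `T₀`, described by a finite list. -/
noncomputable def pieceMap (T₀ : X ≃ᵐ X) (D : ℕ → Set X) : List (ℕ × ℤ) → X → X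
  | [] => id
  | a :: l => fun x => if x ∈ D a.1 then pw T₀ a.2 x else pieceMap T₀ D l x

omit [StandardBorelSpace X] in
theorem pieceMap_meas {D : ℕ → Set X} (hD : ∀ k, MeasurableSet (D k)) (l : List (ℕ × ℤ)) :
    Measurable (pieceMap T₀ D l) := by
  classical
  induction l with
  | nil => exact measurable_id
  | cons a l ih => exact Measurable.ite (hD a.1) (pw_meas _) ih

/-- A countable family of maps that is dense among the maps along orbits. -/
theorem exists_dense_maps (μ : Measure X) [IsFiniteMeasure μ] (T₀ : X ≃ᵐ X) :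
    ∃ W : List (ℕ × ℤ) → X → X, (∀ i, Measurable (W i)) ∧
      ∀ Φ : X → X, Measurable Φ → (∀ x, Orb T₀ x (Φ x)) → ∀ ε : ℝ≥0∞, 0 < ε →
        ∃ i, μ {x | W i x ≠ Φ x} < ε := by
  classical
  obtain ⟨D, hD, hd⟩ := exists_dense_seq' μ
  refine ⟨pieceMap T₀ D, pieceMap_meas hD, fun Φ hΦ ho ε hε => ?_⟩
  have hX : ∀ n, MeasurableSet {x | Φ x = pw T₀ n x} := fun n =>
    measurableSet_eq_fun hΦ (pw_meas n)
  have key : ∀ F : Finset ℤ, ∀ δ : ℝ≥0∞, 0 < δ →
      ∃ l, μ {x | (∃ n ∈ F, Φ x = pw T₀ n x) ∧ pieceMap T₀ D l x ≠ Φ x} < δ := by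
    intro F
    induction F using Finset.induction_on with
    | empty => intro δ hδ; exact ⟨[], by simpa using hδ⟩
    | insert n F _ ih =>
      intro δ hδ
      obtain ⟨l, hl⟩ := ih δ hδ
      obtain ⟨η, hη0, hη⟩ := ENNReal.lt_iff_exists_add_pos_lt.mp hl
      obtain ⟨k, hk⟩ := hd _ (hX n) η (by exact_mod_cast hη0)
      refine ⟨(k, n) :: l, lt_of_le_of_lt ?_ hη⟩
      refine le_trans (measure_mono ?_) ((measure_union_le _ _).trans (add_le_add le_rfl hk.le))
      rintro x ⟨⟨m, hm, hx1⟩, hx2⟩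
      simp only [pieceMap] at hx2
      simp only [Set.mem_union, Set.mem_ofPred_eq, Set.mem_symmDiff]
      by_cases h1 : x ∈ D k
      · rw [if_pos h1] at hx2
        exact Or.inr (Or.inr ⟨h1, fun h => hx2 h.symm⟩)
      · rw [if_neg h1] at hx2
        by_cases h2 : Φ x = pw T₀ n x
        · exact Or.inr (Or.inl ⟨h2, h1⟩)
        · refine Or.inl ⟨⟨m, ?_, hx1⟩, hx2⟩
          rcases Finset.mem_insert.mp hm with rfl | hm
          · exact absurd hx1 h2
          · exact hm
  let E : Finset ℤ → Set X := fun F => {x | ∃ n ∈ F, Φ x = pw T₀ n x}ᶜ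
  have hE : ∀ F, MeasurableSet (E F) := by
    intro F
    refine MeasurableSet.compl ?_
    have : {x | ∃ n ∈ F, Φ x = pw T₀ n x} = ⋃ n ∈ F, {x | Φ x = pw T₀ n x} := by
      ext x; simp
    rw [this]
    exact Finset.measurableSet_biUnion F (fun n _ => hX n)
  have hanti : Antitone E := by
    intro F G hFG x hx hx'
    obtain ⟨n, hn, h⟩ := hx'
    exact hx ⟨n, hFG hn, h⟩
  have hlim := tendsto_measure_iInter_atTop (μ := μ) (fun F => (hE F).nullMeasurableSet) hanti
    ⟨∅, measure_ne_top _ _⟩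
  have hemp : ⋂ F, E F = ∅ := by
    rw [Set.eq_empty_iff_forall_notMem]
    intro x hx
    obtain ⟨n, hn⟩ := ho x
    exact Set.mem_iInter.mp hx {n} ⟨n, Finset.mem_singleton_self n, hn⟩
  rw [hemp, measure_empty] at hlim
  obtain ⟨F, hF⟩ := (hlim.eventually (gt_mem_nhds hε)).exists
  obtain ⟨η, hη0, hη⟩ := ENNReal.lt_iff_exists_add_pos_lt.mp hF
  obtain ⟨l, hl⟩ := key F η (by exact_mod_cast hη0)
  refine ⟨l, lt_of_le_of_lt ?_ hη⟩
  refine le_trans (measure_mono ?_) ((measure_union_le _ _).trans (add_le_add le_rfl hl.le))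
  intro x hx
  by_cases h : ∃ n ∈ F, Φ x = pw T₀ n x
  · exact Or.inr ⟨h, hx⟩
  · exact Or.inl h

end

end Pool.Agent.P.MP_190226_lc
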