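import Mathlib
import Pool.Agent.P.MP_190226_lc.Orbit

set_option autoImplicit false

open MeasureTheory Filter Topology
open scoped symmDiff ENNReal

namespace Pool.Agent.P.MP_190226_lc

variable {X : Type*} [MeasurableSpace X] {μ : Measure X} {T₀ : X ≃ᵐ X}

/-- Graphs of local conjugacies from `T` to `S`. -/
structure PC (S T : FullRep μ T₀) (R : X → X → Prop) : Prop where
  orb : ∀ x y, R x y → Orb T₀ x y
  fn : ∀ x y y', R x y → R x y' → y = y'
  inj : ∀ x x' y, R x y → R x' y → x = x'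
  inv : ∀ x y, R (T.toFun x) (S.toFun y) ↔ R x y

theorem PC.dom_inv {S T : FullRep μ T₀} {R : X → X → Prop} (h : PC S T R) (x : X) :
    (∃ y, R (T.toFun x) y) ↔ ∃ y, R x y := by
  constructor
  · rintro ⟨y, hy⟩
    obtain ⟨y, rfl⟩ := S.toFun.surjective y
    exact ⟨y, (h.inv _ _).mp hy⟩
  · rintro ⟨y, hy⟩
    exact ⟨_, (h.inv _ _).mpr hy⟩

theorem PC.rng_inv {S T : FullRep μ T₀} {R : X → X → Prop} (h : PC S T R) (y : X) :
    (∃ x, R x (S.toFun y)) ↔ ∃ x, R x y := by
  constructor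
  · rintro ⟨x, hx⟩
    obtain ⟨x, rfl⟩ := T.toFun.surjective x
    exact ⟨x, (h.inv _ _).mp hx⟩
  · rintro ⟨x, hx⟩
    exact ⟨_, (h.inv _ _).mpr hx⟩

/-- The local conjugacy obtained from a pair of maps by majority vote. -/
def Gam (W W' : X → X) (S T : FullRep μ T₀) (x y : X) : Prop :=
  Orb T₀ x y ∧ Sparse (fun k => W (T.toFun^[k] x) ≠ S.toFun^[k] y) ∧
    Sparse (fun k => W' (S.toFun^[k] y) ≠ T.toFun^[k] x)

theorem gam_pc (W W' : X → X) (S T : FullRep μ T₀) : PC S T (Gam W W' S T) := by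
  refine ⟨fun x y h => h.1, ?_, ?_, ?_⟩
  · intro x y y' h h'
    by_contra hne
    refine not_sparse_both (fun k => ?_) h.2.1 h'.2.1
    by_contra hc
    push Not at hc
    exact hne ((S.toFun.injective.iterate k) (hc.1.symm.trans hc.2))
  · intro x x' y h h'
    by_contra hne
    refine not_sparse_both (fun k => ?_) h.2.2 h'.2.2
    by_contra hc
    push Not at hc
    exact hne ((T.toFun.injective.iterate k) (hc.1.symm.trans hc.2))
  · intro x y
    refine and_congr ⟨fun h => ((T.orb x).trans h).trans (S.orb y).symm,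
      fun h => ((T.orb x).symm.trans h).trans (S.orb y)⟩ (and_congr ?_ ?_)
    · exact sparse_succ_iff (fun k => W (T.toFun^[k] x) ≠ S.toFun^[k] y)
    · exact sparse_succ_iff (fun k => W' (S.toFun^[k] y) ≠ T.toFun^[k] x)

/-- The greedy union of a sequence of relations. -/
def greedy (G : ℕ → X → X → Prop) : ℕ → X → X → Prop
  | 0 => fun _ _ => False
  | i + 1 => fun x y => greedy G i x y ∨
      (G i x y ∧ (¬ ∃ y', greedy G i x y') ∧ ¬ ∃ x', greedy G i x' y)

omit [MeasurableSpace X] in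
theorem greedy_mono (G : ℕ → X → X → Prop) {i j : ℕ} (hij : i ≤ j) {x y : X}
    (h : greedy G i x y) : greedy G j x y := by
  induction j, hij using Nat.le_induction with
  | base => exact h
  | succ j _ ih => exact Or.inl ih

theorem greedy_pc {S T : FullRep μ T₀} {G : ℕ → X → X → Prop} (hG : ∀ i, PC S T (G i)) (i : ℕ) :
    PC S T (greedy G i) := by
  induction i with
  | zero => exact ⟨fun _ _ h => h.elim, fun _ _ _ h => h.elim, fun _ _ _ h => h.elim,
      fun _ _ => Iff.rfl⟩
  | succ i ih =>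
    refine ⟨?_, ?_, ?_, ?_⟩
    · rintro x y (h | h)
      · exact ih.orb _ _ h
      · exact (hG i).orb _ _ h.1
    · rintro x y y' (h | h) (h' | h')
      · exact ih.fn _ _ _ h h'
      · exact absurd ⟨_, h⟩ h'.2.1
      · exact absurd ⟨_, h'⟩ h.2.1
      · exact (hG i).fn _ _ _ h.1 h'.1
    · rintro x x' y (h | h) (h' | h')
      · exact ih.inj _ _ _ h h'
      · exact absurd ⟨_, h⟩ h'.2.2
      · exact absurd ⟨_, h'⟩ h.2.2
      · exact (hG i).inj _ _ _ h.1 h'.1
    · intro x y
      simp only [greedy]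
      rw [ih.inv, (hG i).inv, ih.dom_inv, ih.rng_inv]

theorem greedy_union_pc {S T : FullRep μ T₀} {G : ℕ → X → X → Prop} (hG : ∀ i, PC S T (G i)) :
    PC S T (fun x y => ∃ i, greedy G i x y) := by
  refine ⟨?_, ?_, ?_, ?_⟩
  · rintro x y ⟨i, h⟩
    exact (greedy_pc hG i).orb _ _ h
  · rintro x y y' ⟨i, h⟩ ⟨j, h'⟩
    exact (greedy_pc hG (max i j)).fn _ _ _ (greedy_mono G (le_max_left _ _) h)
      (greedy_mono G (le_max_right _ _) h')
  · rintro x x' y ⟨i, h⟩ ⟨j, h'⟩
    exact (greedy_pc hG (max i j)).inj _ _ _ (greedy_mono G (le_max_left _ _) h)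
      (greedy_mono G (le_max_right _ _) h')
  · intro x y
    exact exists_congr fun i => (greedy_pc hG i).inv x y

omit [MeasurableSpace X] in
theorem greedy_max (G : ℕ → X → X → Prop) {i : ℕ} {x y : X} (h : G i x y) :
    (∃ y', ∃ j, greedy G j x y') ∨ ∃ x', ∃ j, greedy G j x' y := by
  by_contra hc
  push Not at hc
  exact hc.1 y (i + 1) (Or.inr ⟨h, fun ⟨y', h'⟩ => hc.1 y' i h', fun ⟨x', h'⟩ => hc.2 x' i h'⟩)

section
variable {Y : Type*} [MeasurableSpace Y]

/-- Families of relations along orbits with good sections. -/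
def GoodRel (μ : Measure X) (T₀ : X ≃ᵐ X) (R : Y → X → X → Prop) : Prop :=
  (∀ p x y, R p x y → Orb T₀ x y) ∧ ∀ n : ℤ, Good μ (fun p x => R p x (pw T₀ n x))

theorem GoodRel.dom {R : Y → X → X → Prop} (h : GoodRel μ T₀ R) :
    Good μ (fun p x => ∃ y, R p x y) := by
  refine (Good.exists h.2).congr (fun p x => ⟨fun ⟨n, hn⟩ => ⟨_, hn⟩, fun ⟨y, hy⟩ => ?_⟩)
  obtain ⟨n, rfl⟩ := h.1 _ _ _ hy
  exact ⟨n, hy⟩

theorem GoodRel.swap (h0 : MeasurePreserving T₀ μ μ) {R : Y → X → X → Prop}
    (h : GoodRel μ T₀ R) : GoodRel μ T₀ (fun p x y => R p y x) := by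
  refine ⟨fun p x y hxy => (h.1 _ _ _ hxy).symm, fun n => ?_⟩
  refine ((h.2 (-n)).comp (pw_mp h0 n).quasiMeasurePreserving).congr (fun p x => ?_)
  rw [pw_neg_pw]

theorem GoodRel.greedy (h0 : MeasurePreserving T₀ μ μ) {G : ℕ → Y → X → X → Prop}
    (h : ∀ i, GoodRel μ T₀ (G i)) (i : ℕ) :
    GoodRel μ T₀ (fun p => greedy (fun j => G j p) i) := by
  induction i with
  | zero => exact ⟨fun _ _ _ h => h.elim, fun n => Good.const False⟩
  | succ i ih =>
    refine ⟨?_, fun n => ?_⟩
    · rintro p x y (h1 | h1)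
      · exact ih.1 _ _ _ h1
      · exact (h i).1 _ _ _ h1.1
    · exact (ih.2 n).or (((h i).2 n).and (ih.dom.not.and
        (((ih.swap h0).dom.comp (pw_mp h0 n).quasiMeasurePreserving).not)))

theorem GoodRel.greedy_union (h0 : MeasurePreserving T₀ μ μ) {G : ℕ → Y → X → X → Prop}
    (h : ∀ i, GoodRel μ T₀ (G i)) :
    GoodRel μ T₀ (fun p x y => ∃ i, MP_190226_lc.greedy (fun j => G j p) i x y) :=
  ⟨fun p x y ⟨i, hi⟩ => (GoodRel.greedy h0 h i).1 p x y hi,
    fun n => Good.exists fun i => (GoodRel.greedy h0 h i).2 n⟩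

end

section
variable [StandardBorelSpace X]

theorem measure_iterate_ne_le (h0 : MeasurePreserving T₀ μ μ) (S S' : FullRep μ T₀) (k : ℕ) :
    μ {x | S.toFun^[k] x ≠ S'.toFun^[k] x} ≤ k * edist S S' := by
  induction k with
  | zero => simp
  | succ k ih =>
    have hm : MeasurableSet {x | S.toFun x ≠ S'.toFun x} :=
      (measurableSet_eq_fun S.toFun.measurable S'.toFun.measurable).compl
    have h1 : μ (S.toFun^[k] ⁻¹' {x | S.toFun x ≠ S'.toFun x}) = edist S S' :=
      ((S.mp h0).iterate k).measure_preimage hm.nullMeasurableSet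
    have h2 : {x | S.toFun^[k + 1] x ≠ S'.toFun^[k + 1] x} ⊆
        {x | S.toFun^[k] x ≠ S'.toFun^[k] x} ∪ S.toFun^[k] ⁻¹' {x | S.toFun x ≠ S'.toFun x} := by
      intro x hx
      by_contra hc
      simp only [Set.mem_union, Set.mem_ofPred_eq, Set.mem_preimage, not_or, not_not] at hc
      apply hx
      rw [Function.iterate_succ_apply', Function.iterate_succ_apply', hc.2, hc.1]
    refine (measure_mono h2).trans ((measure_union_le _ _).trans ?_)
    rw [h1, Nat.cast_succ, add_mul, one_mul]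
    gcongr

variable [IsFiniteMeasure μ] [MeasurableSpace (FullRep μ T₀ × FullRep μ T₀)]
  [OpensMeasurableSpace (FullRep μ T₀ × FullRep μ T₀)]

theorem good_basic (h0 : MeasurePreserving T₀ μ μ) {W V : X → X} (hW : Measurable W)
    (hV : Measurable V) (k : ℕ) (n : ℤ) :
    Good μ (fun (p : FullRep μ T₀ × FullRep μ T₀) x =>
      W (p.2.toFun^[k] x) ≠ V (p.1.toFun^[k] (pw T₀ n x))) := by
  refine Good.of_cont (fun p => ?_) (fun p₀ ε hε => ?_)
  · exact (measurableSet_eq_fun (hW.comp (p.2.toFun.measurable.iterate k))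
      (hV.comp ((p.1.toFun.measurable.iterate k).comp (pw_meas n)))).compl
  · have hc : Continuous (fun p : FullRep μ T₀ × FullRep μ T₀ =>
        (k : ℝ≥0∞) * edist p.2 p₀.2 + (k : ℝ≥0∞) * edist p.1 p₀.1) :=
      ((ENNReal.continuous_const_mul (ENNReal.natCast_ne_top k)).comp
        (continuous_snd.edist continuous_const)).add
      ((ENNReal.continuous_const_mul (ENNReal.natCast_ne_top k)).comp
        (continuous_fst.edist continuous_const))
    have ht := hc.tendsto p₀
    simp only [edist_self, mul_zero, add_zero] at ht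
    filter_upwards [ht.eventually (gt_mem_nhds hε)] with p hp
    refine lt_of_le_of_lt ?_ hp
    have hm : MeasurableSet {x | p.1.toFun^[k] x ≠ p₀.1.toFun^[k] x} :=
      (measurableSet_eq_fun (p.1.toFun.measurable.iterate k)
        (p₀.1.toFun.measurable.iterate k)).compl
    have h1 := (pw_mp h0 n).measure_preimage hm.nullMeasurableSet
    refine le_trans (measure_mono (t := {x | p.2.toFun^[k] x ≠ p₀.2.toFun^[k] x} ∪
      pw T₀ n ⁻¹' {x | p.1.toFun^[k] x ≠ p₀.1.toFun^[k] x}) ?_) ((measure_union_le _ _).trans ?_)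
    · intro x hx
      by_contra hc
      simp only [Set.mem_union, Set.mem_ofPred_eq, Set.mem_preimage, not_or, not_not] at hc
      simp only [Set.mem_symmDiff, Set.mem_ofPred_eq, hc.1, hc.2] at hx
      tauto
    · rw [h1]
      exact add_le_add (measure_iterate_ne_le h0 _ _ k) (measure_iterate_ne_le h0 _ _ k)

theorem goodRel_gam (h0 : MeasurePreserving T₀ μ μ) {W W' : X → X} (hW : Measurable W)
    (hW' : Measurable W') :
    GoodRel μ T₀ (fun (p : FullRep μ T₀ × FullRep μ T₀) => Gam W W' p.1 p.2) := by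
  refine ⟨fun p x y h => h.1, fun n => ?_⟩
  refine ((Good.sparse fun k => good_basic h0 hW measurable_id k n).and
    (Good.sparse fun k => good_basic h0 measurable_id hW' k n)).congr (fun p x => ?_)
  simp only [Gam, id_eq, ne_comm]
  exact ⟨fun h => ⟨⟨n, rfl⟩, h⟩, fun h => h.2⟩

end

end Pool.Agent.P.MP_190226_lc
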