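import Mathlib
import Pool.Agent.P.MP_190226_lc.Greedy

set_option autoImplicit false

open MeasureTheory Filter Topology
open scoped symmDiff ENNReal

namespace Pool.Agent.P.MP_190226_lc

variable {X : Type*} [MeasurableSpace X] {μ : Measure X} {T₀ : X ≃ᵐ X}

theorem meas_swap {R : X → X → Prop} (hm : ∀ n, MeasurableSet {x | R x (pw T₀ n x)}) (n : ℤ) :
    MeasurableSet {y | R (pw T₀ n y) y} := by
  have : {y | R (pw T₀ n y) y} = pw T₀ n ⁻¹' {x | R x (pw T₀ (-n) x)} := by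
    ext y; simp [pw_neg_pw]
  rw [this]
  exact pw_meas n (hm _)

theorem meas_dom {R : X → X → Prop} (ho : ∀ x y, R x y → Orb T₀ x y)
    (hm : ∀ n, MeasurableSet {x | R x (pw T₀ n x)}) : MeasurableSet {x | ∃ y, R x y} := by
  have : {x | ∃ y, R x y} = ⋃ n, {x | R x (pw T₀ n x)} := by
    ext x
    simp only [Set.mem_ofPred_eq, Set.mem_iUnion]
    refine ⟨fun ⟨y, hy⟩ => ?_, fun ⟨n, hn⟩ => ⟨_, hn⟩⟩
    obtain ⟨n, rfl⟩ := ho _ _ hy
    exact ⟨n, hy⟩
  rw [this]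
  exact MeasurableSet.iUnion hm

theorem exists_sat (h0 : MeasurePreserving T₀ μ μ) {A : Set X} (hA : MeasurableSet A)
    (h : ∀ᵐ x ∂μ, x ∈ A) :
    ∃ A₀ : Set X, MeasurableSet A₀ ∧ (∀ᵐ x ∂μ, x ∈ A₀) ∧ A₀ ⊆ A ∧
      ∀ x y, x ∈ A₀ → Orb T₀ x y → y ∈ A₀ := by
  refine ⟨⋂ n, pw T₀ n ⁻¹' A, MeasurableSet.iInter fun n => pw_meas n hA, ?_, ?_, ?_⟩
  · simp only [Set.mem_iInter]
    exact ae_all_iff.mpr fun n => (pw_mp h0 n).quasiMeasurePreserving.ae h
  · intro x hx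
    have := Set.mem_iInter.mp hx 0
    rwa [Set.mem_preimage, pw_zero] at this
  · rintro x y hx ⟨m, rfl⟩
    refine Set.mem_iInter.mpr fun n => ?_
    have := Set.mem_iInter.mp hx (n + m)
    rwa [Set.mem_preimage, pw_add] at this

variable [StandardBorelSpace X] [IsFiniteMeasure μ]

theorem conj_of_full (h0 : MeasurePreserving T₀ μ μ) {S T : FullRep μ T₀} {R : X → X → Prop}
    (hR : PC S T R) (hm : ∀ n, MeasurableSet {x | R x (pw T₀ n x)})
    (hfull : μ {x | ¬ ∃ y, R x y} = 0) :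
    ∃ U : FullRep μ T₀, S.toFun =ᵐ[μ] U.toFun ∘ T.toFun ∘ U.toFun.symm := by
  have hA := meas_dom hR.orb hm
  have hB : MeasurableSet {y | ∃ x, R x y} :=
    meas_dom (R := fun y x => R x y) (fun y x h => (hR.orb _ _ h).symm) (meas_swap hm)
  obtain ⟨f, hf, hfo, hfR⟩ := exists_fun_of_rel hR.orb hm hR.fn
  have hAB : μ {x | ∃ y, R x y} ≤ μ {y | ∃ x, R x y} := by
    refine measure_le_of_injOn h0 hf hA (fun x _ => hfo x) ?_ ?_
    · rintro x ⟨y, hy⟩ x' ⟨y', hy'⟩ h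
      rw [hfR _ _ hy, hfR _ _ hy'] at h
      exact hR.inj _ _ _ hy (h ▸ hy')
    · rintro x ⟨y, hy⟩
      exact ⟨x, by rw [hfR _ _ hy]; exact hy⟩
  have hfull' : μ {y | ∃ x, R x y}ᶜ = 0 := by
    have h1 : μ {x | ∃ y, R x y}ᶜ = 0 := hfull
    rw [measure_compl hA (measure_ne_top _ _), tsub_eq_zero_iff_le] at h1
    rw [measure_compl hB (measure_ne_top _ _), tsub_eq_zero_iff_le]
    exact h1.trans hAB
  obtain ⟨A₀, hA₀, hae, hsub, hsat⟩ := exists_sat h0 (hA.inter hB)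
    (Eventually.and (show ∀ᵐ x ∂μ, ∃ y, R x y from hfull) hfull')
  let R' : X → X → Prop := fun x y => (x ∈ A₀ ∧ R x y) ∨ (x ∉ A₀ ∧ y = x)
  have ho' : ∀ x y, R' x y → Orb T₀ x y := by
    rintro x y (h | h)
    · exact hR.orb _ _ h.2
    · rw [h.2]; exact Orb.refl x
  have hm' : ∀ n, MeasurableSet {x | R' x (pw T₀ n x)} := fun n =>
    (hA₀.inter (hm n)).union (hA₀.compl.inter (measurableSet_eq_fun (pw_meas n) measurable_id))
  obtain ⟨u, hu, huo, huR⟩ := exists_fun_of_rel ho' hm' (by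
    rintro x y y' (h | h) (h' | h')
    · exact hR.fn _ _ _ h.2 h'.2
    · exact absurd h.1 h'.1
    · exact absurd h'.1 h.1
    · rw [h.2, h'.2])
  obtain ⟨v, hv, -, hvR⟩ := exists_fun_of_rel (R := fun y x => R' x y)
    (fun y x h => (ho' _ _ h).symm) (meas_swap hm') (by
    rintro y x x' (h | h) (h' | h')
    · exact hR.inj _ _ _ h.2 h'.2
    · exact absurd (h'.2 ▸ hsat _ _ h.1 (hR.orb _ _ h.2)) h'.1
    · exact absurd (h.2 ▸ hsat _ _ h'.1 (hR.orb _ _ h'.2)) h.1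
    · rw [← h.2, ← h'.2])
  have htot : ∀ x, ∃ y, R' x y := by
    intro x
    by_cases hx : x ∈ A₀
    · obtain ⟨y, hy⟩ := (hsub hx).1
      exact ⟨y, Or.inl ⟨hx, hy⟩⟩
    · exact ⟨x, Or.inr ⟨hx, rfl⟩⟩
  have hsur : ∀ y, ∃ x, R' x y := by
    intro y
    by_cases hy : y ∈ A₀
    · obtain ⟨x, hx⟩ := (hsub hy).2
      exact ⟨x, Or.inl ⟨hsat _ _ hy (hR.orb _ _ hx).symm, hx⟩⟩
    · exact ⟨y, Or.inr ⟨hy, rfl⟩⟩
  let e : X ≃ᵐ X :=
    { toFun := u
      invFun := v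
      left_inv := fun x => by
        obtain ⟨y, hy⟩ := htot x
        rw [huR _ _ hy, hvR _ _ hy]
      right_inv := fun y => by
        obtain ⟨x, hx⟩ := hsur y
        rw [hvR _ _ hx, huR _ _ hx]
      measurable_toFun := hu
      measurable_invFun := hv }
  refine ⟨⟨e, huo⟩, ?_⟩
  filter_upwards [hae] with y hy
  obtain ⟨x, hx⟩ := (hsub hy).2
  have hx0 : x ∈ A₀ := hsat _ _ hy (hR.orb _ _ hx).symm
  change S.toFun y = u (T.toFun (v y))
  rw [hvR y x (Or.inl ⟨hx0, hx⟩)]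
  exact (huR _ _ (Or.inl ⟨hsat _ _ hx0 (T.orb x), (hR.inv _ _).mpr hx⟩)).symm

theorem exists_local (h0 : MeasurePreserving T₀ μ μ) {S T U : FullRep μ T₀} {R : X → X → Prop}
    (hR : PC S T R) (hm : ∀ n, MeasurableSet {x | R x (pw T₀ n x)})
    (hU : S.toFun =ᵐ[μ] U.toFun ∘ T.toFun ∘ U.toFun.symm)
    (hne : μ {x | ¬ ∃ y, R x y} ≠ 0) :
    ∃ (A : Set X) (Φ Φ' : X → X), MeasurableSet A ∧ μ A ≠ 0 ∧ Measurable Φ ∧ Measurable Φ' ∧
      (∀ x, Orb T₀ x (Φ x)) ∧ (∀ x, Orb T₀ x (Φ' x)) ∧ (∀ x ∈ A, T.toFun x ∈ A) ∧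
      (∀ x ∈ A, Φ (T.toFun x) = S.toFun (Φ x)) ∧ (∀ x ∈ A, Φ' (Φ x) = x) ∧
      ∀ x ∈ A, (¬ ∃ y, R x y) ∧ ¬ ∃ x', R x' (Φ x) := by
  classical
  have hA := meas_dom hR.orb hm
  have hB : MeasurableSet {y | ∃ x, R x y} :=
    meas_dom (R := fun y x => R x y) (fun y x h => (hR.orb _ _ h).symm) (meas_swap hm)
  obtain ⟨f, hf, hfo, hfR⟩ := exists_fun_of_rel hR.orb hm hR.fn
  obtain ⟨f', hf', hfo', hfR'⟩ := exists_fun_of_rel (R := fun y x => R x y)
    (fun y x h => (hR.orb _ _ h).symm) (meas_swap hm) (fun y x x' h h' => hR.inj _ _ _ h h')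
  have hae : ∀ᵐ x ∂μ, x ∈ {x | S.toFun (U.toFun x) = U.toFun (T.toFun x)} := by
    filter_upwards [(U.mp h0).quasiMeasurePreserving.ae hU] with x hx
    simpa using hx
  obtain ⟨X₁, hX₁, hae₁, hsub, hsat⟩ := exists_sat h0
    (measurableSet_eq_fun (S.toFun.measurable.comp U.toFun.measurable)
      (U.toFun.measurable.comp T.toFun.measurable)) hae
  let g : X → X := f' ∘ U.toFun
  let g' : X → X := U.toFun.symm ∘ f
  have hg : Measurable g := hf'.comp U.toFun.measurable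
  have hg' : Measurable g' := U.toFun.symm.measurable.comp hf
  have hgo : ∀ x, Orb T₀ x (g x) := fun x => (U.orb x).trans (hfo' _)
  have hgo' : ∀ x, Orb T₀ x (g' x) := fun x => (hfo x).trans (U.orb_symm _)
  let Bx : X → Prop := fun x => ∃ x', R x' (U.toFun x)
  have hBx : MeasurableSet {x | Bx x} := U.toFun.measurable hB
  have hgR : ∀ x, Bx x → R (g x) (U.toFun x) := by
    rintro x ⟨x', hx'⟩
    have : g x = x' := hfR' _ _ hx'
    rw [this]; exact hx'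
  have hgg : ∀ x, Bx x → g' (g x) = x := by
    intro x hx
    change U.toFun.symm (f (g x)) = x
    rw [hfR _ _ (hgR x hx), MeasurableEquiv.symm_apply_apply]
  have hBT : ∀ x ∈ X₁, Bx (T.toFun x) ↔ Bx x := by
    intro x hx
    have h1 : S.toFun (U.toFun x) = U.toFun (T.toFun x) := hsub hx
    simp only [Bx, ← h1]
    exact hR.rng_inv _
  have hgT : ∀ x ∈ X₁, Bx x → g (T.toFun x) = T.toFun (g x) := by
    intro x hx hb
    have h1 : S.toFun (U.toFun x) = U.toFun (T.toFun x) := hsub hx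
    change f' (U.toFun (T.toFun x)) = _
    rw [← h1]
    exact hfR' _ _ ((hR.inv _ _).mpr (hgR x hb))
  have hiter : ∀ j, ∀ x ∈ X₁, (∀ i < j, Bx (g^[i] x)) →
      g^[j] (T.toFun x) = T.toFun (g^[j] x) ∧ g'^[j] (g^[j] x) = x := by
    intro j
    induction j with
    | zero => intro x _ _; exact ⟨rfl, rfl⟩
    | succ j ih =>
      intro x hx hb
      obtain ⟨h1, h2⟩ := ih x hx (fun i hi => hb i (by omega))
      have h3 := hb j (by omega)
      constructor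
      · rw [Function.iterate_succ_apply', Function.iterate_succ_apply', h1]
        exact hgT _ (hsat _ _ hx (orb_iterate hgo j x)) h3
      · rw [Function.iterate_succ_apply g', Function.iterate_succ_apply' g, hgg _ h3, h2]
  let Z : Set X := ⋂ j, g^[j] ⁻¹' {x | Bx x}
  have hZ : MeasurableSet Z := MeasurableSet.iInter fun j => (hg.iterate j) hBx
  have hZ0 : μ (Z \ {x | ∃ y, R x y}) = 0 := by
    have h1 : μ Z ≤ μ (Z ∩ {x | ∃ y, R x y}) := by
      refine measure_le_of_injOn h0 hg hZ (fun x _ => hgo x) ?_ ?_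
      · intro x hx x' hx' h
        rw [← hgg x (Set.mem_iInter.mp hx 0), h, hgg x' (Set.mem_iInter.mp hx' 0)]
      · intro x hx
        refine ⟨Set.mem_iInter.mpr fun j => ?_, ⟨_, hgR x (Set.mem_iInter.mp hx 0)⟩⟩
        exact Set.mem_iInter.mp hx (j + 1)
    have h2 := measure_inter_add_sdiff (μ := μ) Z hA
    rw [← h2] at h1
    have h3 := (ENNReal.add_le_add_iff_left (measure_ne_top μ (Z ∩ {x | ∃ y, R x y}))).mp
      (h1.trans (le_of_eq (add_zero _).symm))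
    exact le_antisymm h3 zero_le
  let A : ℕ → Set X := fun j => ({x | ∃ y, R x y}ᶜ ∩ X₁) ∩
    ((⋂ i, ⋂ _ : i < j, g^[i] ⁻¹' {x | Bx x}) ∩ g^[j] ⁻¹' {x | Bx x}ᶜ)
  have hAm : ∀ j, MeasurableSet (A j) := fun j => (hA.compl.inter hX₁).inter
    ((MeasurableSet.iInter fun i => MeasurableSet.iInter fun _ => (hg.iterate i) hBx).inter
      ((hg.iterate j) hBx.compl))
  have hAmem : ∀ j x, x ∈ A j ↔ ((¬ ∃ y, R x y) ∧ x ∈ X₁) ∧ (∀ i < j, Bx (g^[i] x)) ∧
      ¬ Bx (g^[j] x) := by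
    intro j x
    simp only [A, Set.mem_inter_iff, Set.mem_compl_iff, Set.mem_ofPred_eq, Set.mem_iInter,
      Set.mem_preimage]
  obtain ⟨j, hj⟩ : ∃ j, μ (A j) ≠ 0 := by
    by_contra hc
    push Not at hc
    apply hne
    refine measure_mono_null (t := ((Z \ {x | ∃ y, R x y}) ∪ X₁ᶜ) ∪ ⋃ j, A j) ?_
      (measure_union_null (measure_union_null hZ0 hae₁) (measure_iUnion_null hc))
    intro x hx
    by_cases h1 : x ∈ X₁
    · by_cases h2 : ∃ j, ¬ Bx (g^[j] x)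
      · refine Or.inr (Set.mem_iUnion.mpr ⟨Nat.find h2, (hAmem _ _).mpr ⟨⟨hx, h1⟩, ?_,
          Nat.find_spec h2⟩⟩)
        intro i hi
        exact not_not.mp (Nat.find_min h2 hi)
      · push Not at h2
        exact Or.inl (Or.inl ⟨Set.mem_iInter.mpr h2, hx⟩)
    · exact Or.inl (Or.inr h1)
  refine ⟨A j, U.toFun ∘ g^[j], g'^[j] ∘ U.toFun.symm, hAm j, hj,
    U.toFun.measurable.comp (hg.iterate j), (hg'.iterate j).comp U.toFun.symm.measurable,
    fun x => (orb_iterate hgo j x).trans (U.orb _),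
    fun x => (U.orb_symm x).trans (orb_iterate hgo' j _), ?_, ?_, ?_, ?_⟩
  · intro x hx
    obtain ⟨⟨h1, h2⟩, h3, h4⟩ := (hAmem _ _).mp hx
    refine (hAmem _ _).mpr ⟨⟨by rwa [hR.dom_inv], hsat _ _ h2 (T.orb x)⟩, fun i hi => ?_, ?_⟩
    · rw [(hiter i x h2 (fun i' hi' => h3 i' (by omega))).1,
        hBT _ (hsat _ _ h2 (orb_iterate hgo i x))]
      exact h3 i hi
    · rwa [(hiter j x h2 h3).1, hBT _ (hsat _ _ h2 (orb_iterate hgo j x))]
  · intro x hx
    obtain ⟨⟨-, h2⟩, h3, -⟩ := (hAmem _ _).mp hx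
    simp only [Function.comp_apply]
    rw [(hiter j x h2 h3).1]
    exact (hsub (hsat _ _ h2 (orb_iterate hgo j x))).symm
  · intro x hx
    obtain ⟨⟨-, h2⟩, h3, -⟩ := (hAmem _ _).mp hx
    simp only [Function.comp_apply, MeasurableEquiv.symm_apply_apply]
    exact (hiter j x h2 h3).2
  · intro x hx
    obtain ⟨⟨h1, -⟩, -, h4⟩ := (hAmem _ _).mp hx
    exact ⟨h1, h4⟩

theorem gam_hits (h0 : MeasurePreserving T₀ μ μ) {ι : Type*} {W : ι → X → X}
    (hW : ∀ i, Measurable (W i))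
    (hd : ∀ Φ : X → X, Measurable Φ → (∀ x, Orb T₀ x (Φ x)) → ∀ ε : ℝ≥0∞, 0 < ε →
        ∃ i, μ {x | W i x ≠ Φ x} < ε)
    {S T : FullRep μ T₀} {A : Set X} {Φ Φ' : X → X} (hA : MeasurableSet A) (hA0 : μ A ≠ 0)
    (hΦ : Measurable Φ) (hΦ' : Measurable Φ') (ho : ∀ x, Orb T₀ x (Φ x))
    (ho' : ∀ x, Orb T₀ x (Φ' x)) (hT : ∀ x ∈ A, T.toFun x ∈ A)
    (hc : ∀ x ∈ A, Φ (T.toFun x) = S.toFun (Φ x)) (hi : ∀ x ∈ A, Φ' (Φ x) = x) :
    ∃ i i', ∃ x ∈ A, Gam (W i) (W i') S T x (Φ x) := by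
  have hε : 0 < μ A / 6 := ENNReal.div_pos hA0 (by norm_num)
  obtain ⟨i, h1⟩ := hd Φ hΦ ho _ hε
  obtain ⟨i', h2⟩ := hd Φ' hΦ' ho' _ hε
  let B₁ : Set X := {x | W i x ≠ Φ x}
  let B₂ : Set X := A ∩ {x | W i' (Φ x) ≠ Φ' (Φ x)}
  have hB₁ : MeasurableSet B₁ := (measurableSet_eq_fun (hW i) hΦ).compl
  have hB₂ : MeasurableSet B₂ :=
    hA.inter (measurableSet_eq_fun ((hW i').comp hΦ) (hΦ'.comp hΦ)).compl
  have h3 : μ B₂ ≤ μ {x | W i' x ≠ Φ' x} := by
    refine measure_le_of_injOn h0 hΦ hB₂ (fun x _ => ho x) ?_ (fun x hx => hx.2)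
    intro x hx x' hx' h
    rw [← hi x hx.1, h, hi x' hx'.1]
  have h4 := measure_not_sparse_le (T.mp h0) hB₁
  have h5 := measure_not_sparse_le (T.mp h0) hB₂
  have h6 : ¬ A ⊆ {x | ¬ Sparse (fun k => T.toFun^[k] x ∈ B₁)} ∪
      {x | ¬ Sparse (fun k => T.toFun^[k] x ∈ B₂)} := by
    intro hsub
    have h7 := (measure_mono (μ := μ) hsub).trans ((measure_union_le _ _).trans (add_le_add h4 h5))
    have h8 : 3 * μ B₁ + 3 * μ B₂ < 3 * (μ A / 6) + 3 * (μ A / 6) := by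
      refine ENNReal.add_lt_add ?_ ?_
      · exact ENNReal.mul_lt_mul_right (by norm_num) (by norm_num) h1
      · exact ENNReal.mul_lt_mul_right (by norm_num) (by norm_num) (h3.trans_lt h2)
    have h9 : 3 * (μ A / 6) + 3 * (μ A / 6) = μ A := by
      rw [← add_mul, show (3 + 3 : ℝ≥0∞) = 6 by norm_num]
      exact ENNReal.mul_div_cancel (by norm_num) (by norm_num)
    rw [h9] at h8
    exact absurd h7 (not_le.mpr h8)
  rw [Set.not_subset] at h6
  obtain ⟨x, hx, hx'⟩ := h6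
  simp only [Set.mem_union, Set.mem_ofPred_eq, not_or, not_not] at hx'
  have key : ∀ k, T.toFun^[k] x ∈ A ∧ Φ (T.toFun^[k] x) = S.toFun^[k] (Φ x) := by
    intro k
    induction k with
    | zero => exact ⟨hx, rfl⟩
    | succ k ih =>
      rw [Function.iterate_succ_apply', Function.iterate_succ_apply']
      exact ⟨hT _ ih.1, by rw [hc _ ih.1, ih.2]⟩
  refine ⟨i, i', x, hx, ho x, ?_, ?_⟩
  · convert hx'.1 using 2 with k
    simp only [B₁, Set.mem_ofPred_eq, (key k).2]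
  · convert hx'.2 using 2 with k
    simp only [B₂, Set.mem_inter_iff, Set.mem_ofPred_eq, (key k).1, true_and,
      (key k).2]
    rw [← (key k).2, hi _ (key k).1]

theorem measurable_pre (h0 : MeasurePreserving T₀ μ μ) :
    MeasurableSet[borel (FullRep μ T₀ × FullRep μ T₀)]
      {p | ∃ U : FullRep μ T₀, p.1.toFun =ᵐ[μ] U.toFun ∘ p.2.toFun ∘ U.toFun.symm} := by
  let _ : MeasurableSpace (FullRep μ T₀ × FullRep μ T₀) := borel _
  have : BorelSpace (FullRep μ T₀ × FullRep μ T₀) := ⟨rfl⟩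
  obtain ⟨W, hW, hd⟩ := exists_dense_maps μ T₀
  obtain ⟨e, he⟩ := exists_surjective_nat (List (ℕ × ℤ) × List (ℕ × ℤ))
  let G : ℕ → FullRep μ T₀ × FullRep μ T₀ → X → X → Prop :=
    fun i p => Gam (W (e i).1) (W (e i).2) p.1 p.2
  have hG : ∀ i, GoodRel μ T₀ (G i) := fun i => goodRel_gam h0 (hW _) (hW _)
  have hΨ := GoodRel.greedy_union h0 hG
  have hpc : ∀ p : FullRep μ T₀ × FullRep μ T₀,
      PC p.1 p.2 (fun x y => ∃ i, greedy (fun j => G j p) i x y) :=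
    fun p => greedy_union_pc (fun i => gam_pc _ _ _ _)
  have hmeas := hΨ.dom.not.measurable_measure (measurableSet_singleton 0)
  convert hmeas using 1
  ext p
  simp only [Set.mem_ofPred_eq, Set.mem_preimage, Set.mem_singleton_iff]
  constructor
  · rintro ⟨U, hU⟩
    by_contra hne
    obtain ⟨A, Φ, Φ', hA, hA0, hΦ, hΦ', ho, ho', hT, hc, hi, hn⟩ :=
      exists_local h0 (hpc p) (fun n => (hΨ.2 n).1 p) hU hne
    obtain ⟨i, i', x, hx, hg⟩ := gam_hits h0 hW hd hA hA0 hΦ hΦ' ho ho' hT hc hi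
    obtain ⟨j, hj⟩ := he (i, i')
    have h1 : G j p x (Φ x) := by simp only [G, hj]; exact hg
    rcases greedy_max (fun j => G j p) h1 with h | h
    · exact (hn x hx).1 h
    · exact (hn x hx).2 h
  · intro h
    exact conj_of_full h0 (hpc p) (fun n => (hΨ.2 n).1 p) h

theorem conjRel_borel (h0 : MeasurePreserving T₀ μ μ) :
    MeasurableSet[borel (FullGroup μ T₀ × FullGroup μ T₀)] (conjRel μ T₀) := by
  let q : FullRep μ T₀ × FullRep μ T₀ → FullGroup μ T₀ × FullGroup μ T₀ :=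
    Prod.map SeparationQuotient.mk SeparationQuotient.mk
  have hq : IsInducing q :=
    SeparationQuotient.isInducing_mk.prodMap SeparationQuotient.isInducing_mk
  have hs : Function.Surjective q :=
    SeparationQuotient.surjective_mk.prodMap SeparationQuotient.surjective_mk
  have h1 := measurable_pre h0
  rw [hq.eq_induced, borel_comap] at h1
  obtain ⟨E, hE, hEq⟩ := h1
  convert hE using 1
  apply hs.preimage_injective
  rw [hEq]
  ext p
  have hae : ∀ S S' : FullRep μ T₀, (SeparationQuotient.mk S : FullGroup μ T₀) =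
      SeparationQuotient.mk S' → S.toFun =ᵐ[μ] S'.toFun := by
    intro S S' h
    exact EMetric.inseparable_iff.mp (SeparationQuotient.mk_eq_mk.mp h)
  constructor
  · rintro ⟨S, T, U, h2, h3⟩
    have h4 := hae _ _ (congrArg Prod.fst h2)
    have h5 := hae _ _ (congrArg Prod.snd h2)
    refine ⟨U, h4.trans (h3.trans ?_)⟩
    filter_upwards [((U.mp h0).symm U.toFun).quasiMeasurePreserving.ae h5] with x hx
    simp only [Function.comp_apply, hx]
  · rintro ⟨U, hU⟩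
    exact ⟨p.1, p.2, U, rfl, hU⟩

end Pool.Agent.P.MP_190226_lc
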